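import Mathlib
import Pool.Agent.Helper28.MT.Goals3

/-!
# Project MT3 (MP_bb782b_co): size of the families (packet MT3-CARD)
-/

set_option autoImplicit false

namespace Pool.Agent.Helper20.MT3

open Finset
open Pool.Agent.Helper55.Rota
open Pool.Agent.Helper28.MT Pool.Agent.Helper28.MT3

lemma two_mul_le_two_pow (k : ℕ) (hk : 2 ≤ k) : 2 * k ≤ 2 ^ k := by
  induction k, hk using Nat.le_induction with
  | base => norm_num
  | succ m hm ih =>
    rw [pow_succ]
    omega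

lemma count1 (n k h e : ℕ) (hnk : n ≤ k) (hkh : k ≤ 2 ^ h) (hh : h ≤ k)
    (he : 1 ≤ e) (hc : 2 ^ e * (e + 2 * h) ≤ 4 * k * e) :
    k * ((2 ^ e) ^ n * ((2 ^ e) ^ n * (2 ^ e * (n * k)) ^ (2 ^ e))) ≤ 2 ^ (7 * k * e) := by
  have h3 : 2 ^ e * (n * k) ≤ 2 ^ (e + 2 * h) := by
    rw [pow_add, two_mul, pow_add]
    exact Nat.mul_le_mul_left _ (Nat.mul_le_mul (hnk.trans hkh) hkh)
  have h4 : (2 ^ e * (n * k)) ^ (2 ^ e) ≤ 2 ^ (4 * k * e) := by
    calc (2 ^ e * (n * k)) ^ (2 ^ e) ≤ (2 ^ (e + 2 * h)) ^ (2 ^ e) := Nat.pow_le_pow_left h3 _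
      _ = 2 ^ ((e + 2 * h) * 2 ^ e) := by rw [← pow_mul]
      _ ≤ 2 ^ (4 * k * e) := Nat.pow_le_pow_right (by norm_num) (by rw [mul_comm]; exact hc)
  have h5 : (2 ^ e) ^ n = 2 ^ (e * n) := by rw [← pow_mul]
  rw [h5]
  calc k * (2 ^ (e * n) * (2 ^ (e * n) * (2 ^ e * (n * k)) ^ (2 ^ e)))
      ≤ 2 ^ h * (2 ^ (e * n) * (2 ^ (e * n) * 2 ^ (4 * k * e))) :=
        Nat.mul_le_mul hkh (Nat.mul_le_mul_left _ (Nat.mul_le_mul_left _ h4))
    _ = 2 ^ (h + (e * n + (e * n + 4 * k * e))) := by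
        rw [← pow_add, ← pow_add, ← pow_add]
    _ ≤ 2 ^ (7 * k * e) := by
        apply Nat.pow_le_pow_right (by norm_num)
        have e1 : e * n ≤ e * k := Nat.mul_le_mul_left _ hnk
        have e2 : k ≤ e * k := Nat.le_mul_of_pos_left _ he
        have e3 : 4 * k * e = 4 * (e * k) := by ring
        have e4 : 7 * k * e = 7 * (e * k) := by ring
        omega

lemma count2 (n k h e : ℕ) (hnk : n ≤ k) (hkh : k ≤ 2 ^ h) (he : 1 ≤ e) (hc : h ≤ 2 * e) :
    (n * k) ^ n * (n + 1) ^ n ≤ 2 ^ (7 * k * e) := by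
  have h3 : n * k ≤ 2 ^ (2 * h) := by
    rw [two_mul, pow_add]
    exact Nat.mul_le_mul (hnk.trans hkh) hkh
  have h4 : n + 1 ≤ 2 ^ (h + 1) := by
    have : 1 ≤ 2 ^ h := Nat.one_le_two_pow
    rw [pow_succ]
    omega
  have h5 : (n * k) ^ n ≤ 2 ^ (2 * h * n) := by
    rw [pow_mul]
    exact Nat.pow_le_pow_left h3 n
  have h6 : (n + 1) ^ n ≤ 2 ^ ((h + 1) * n) := by
    rw [pow_mul]
    exact Nat.pow_le_pow_left h4 n
  calc (n * k) ^ n * (n + 1) ^ n ≤ 2 ^ (2 * h * n) * 2 ^ ((h + 1) * n) := Nat.mul_le_mul h5 h6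
    _ = 2 ^ (2 * h * n + (h + 1) * n) := by rw [← pow_add]
    _ ≤ 2 ^ (7 * k * e) := by
        apply Nat.pow_le_pow_right (by norm_num)
        have e1 : h * n ≤ 2 * e * k := Nat.mul_le_mul hc hnk
        have e2 : k ≤ e * k := Nat.le_mul_of_pos_left _ he
        have e3 : 2 * h * n = 2 * (h * n) := by ring
        have e5 : (h + 1) * n = h * n + n := by ring
        have e6 : 7 * k * e = 7 * (e * k) := by ring
        have e7 : 2 * e * k = 2 * (e * k) := by ring
        omega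

theorem mt3_card : G_CARD := by
  intro α _ _ R n k h b t a e hk hnk hkh hh hcard he
  have hhk : h ≤ k := by
    have h1 : 2 ^ h ≤ 2 ^ k := hh.trans (two_mul_le_two_pow k hk)
    exact (Nat.pow_le_pow_iff_right (by norm_num)).mp h1
  unfold Vf
  have hA : (if 2 ^ e * (e + 2 * h) ≤ 4 * k * e then
      (univ : Finset (Fin k × (Fin n → Fin (2 ^ e)) × (Fin n → Fin (2 ^ e)) ×
        (Fin (2 ^ e) → Fin (2 ^ e) × α))).image
        (fun p => Vfam R b t a p.1 p.2.1 p.2.2.1 p.2.2.2) else ∅).card ≤ 2 ^ (7 * k * e) := by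
    split_ifs with hc
    · refine card_image_le.trans ?_
      rw [card_univ]
      have e1 : Fintype.card (Fin k × (Fin n → Fin (2 ^ e)) × (Fin n → Fin (2 ^ e)) ×
          (Fin (2 ^ e) → Fin (2 ^ e) × α)) =
          k * ((2 ^ e) ^ n * ((2 ^ e) ^ n * (2 ^ e * (n * k)) ^ (2 ^ e))) := by
        simp only [Fintype.card_prod, Fintype.card_fin, Fintype.card_fun, hcard]
      rw [e1]
      exact count1 n k h e hnk hkh hhk he hc
    · rw [card_empty]
      exact Nat.zero_le _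
  have hB : (if h ≤ 2 * e then
      (univ : Finset ((Fin n → α) × (Fin n → Fin (n + 1)))).image (fun p => Ufam R b p.1 p.2)
      else ∅).card ≤ 2 ^ (7 * k * e) := by
    split_ifs with hc
    · refine card_image_le.trans ?_
      rw [card_univ]
      have e1 : Fintype.card ((Fin n → α) × (Fin n → Fin (n + 1))) =
          (n * k) ^ n * (n + 1) ^ n := by
        simp only [Fintype.card_prod, Fintype.card_fin, Fintype.card_fun, hcard]
      rw [e1]
      exact count2 n k h e hnk hkh he hc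
    · rw [card_empty]
      exact Nat.zero_le _
  refine (card_union_le _ _).trans ((Nat.add_le_add hA hB).trans ?_)
  rw [← two_mul, ← pow_succ']
  apply Nat.pow_le_pow_right (by norm_num)
  have e1 : 7 * k * e = 7 * (k * e) := by ring
  have e2 : 8 * k * e = 8 * (k * e) := by ring
  have e3 : 1 ≤ k * e := Nat.mul_pos (by omega) he
  omega

end Pool.Agent.Helper20.MT3
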